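import Mathlib

set_option autoImplicit false

open MeasureTheory ProbabilityTheory Set Filter Topology
open scoped ENNReal

namespace Pool.Agent.Results.MP_dd3545_lc.PerfNull

/-- The Cantor space, with its product topology and Borel sigma-algebra. -/
abbrev C : Type := ℕ → Bool

/-- The fair coin measure on `Bool`. -/
noncomputable def coin : Measure Bool :=
  bernoulliMeasure true false ⟨1 / 2, by norm_num, by norm_num⟩

/-- Lebesgue measure `m` on the Cantor space: the product of the fair coin measures. -/
noncomputable def leb : Measure C := Measure.infinitePi (fun _ : ℕ => coin)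

/-- The initial segment of `x` of length `n`. -/
def pre (x : C) (n : ℕ) : List Bool := (List.range n).map x

/-- The finite word `w` is an initial segment of `x`. -/
def Ext (w : List Bool) (x : C) : Prop := pre x w.length = w

/-- The tree `T_P` of `P`. -/
def tree (P : Set C) : Set (List Bool) := {w | ∃ x ∈ P, Ext w x}

/-- The branching points of `T_P`. -/
def Split (P : Set C) : Set (List Bool) := {w | w ++ [false] ∈ tree P ∧ w ++ [true] ∈ tree P}

/-- `h` is induced by an order isomorphism `e` of the full binary tree onto `Split P` (both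
ordered by the initial segment relation): `h x` is the union of the words `e (x|n)`. -/
def Canonical (P : Set C) (h : C → C) : Prop :=
  ∃ e : List Bool → List Bool, range e = Split P ∧ (∀ s t, e s <+: e t ↔ s <+: t) ∧
    ∀ x n, Ext (e (pre x n)) (h x)

/-- Perfectly null sets. -/
def PN (A : Set C) : Prop :=
  ∀ P : Set C, Perfect P → P.Nonempty → ∀ h : C → C, Canonical P h → leb (h ⁻¹' (A ∩ P)) = 0

/-- Universally null sets. -/
def UN (A : Set C) : Prop :=
  ∀ μ : Measure C, IsFiniteMeasure μ → (∀ x, μ {x} = 0) → μ A = 0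

/-! ### Words and cylinders -/

lemma pre_succ (x : C) (n : ℕ) : pre x (n + 1) = pre x n ++ [x n] := by
  simp [pre, List.range_succ]

lemma pre_length (x : C) (n : ℕ) : (pre x n).length = n := by simp [pre]

lemma pre_eq_iff (x y : C) (n : ℕ) : pre x n = pre y n ↔ ∀ i < n, x i = y i := by
  simp [pre, List.map_inj_left]

lemma pre_prefix (x : C) {m n : ℕ} (h : m ≤ n) : pre x m <+: pre x n := by
  induction n, h using Nat.le_induction with
  | base => exact List.prefix_refl _
  | succ k _ ih => rw [pre_succ]; exact ih.trans (List.prefix_append _ _)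

lemma ext_of_prefix {u v : List Bool} {x : C} (h : u <+: v) (hv : Ext v x) : Ext u x := by
  have h1 : pre x u.length <+: v := by
    rw [← hv]; exact pre_prefix x h.length_le
  exact (List.prefix_of_prefix_length_le h1 h (by simp [pre_length])).eq_of_length
    (pre_length _ _)

lemma ext_comp {u v : List Bool} {x : C} (hu : Ext u x) (hv : Ext v x) : u <+: v ∨ v <+: u := by
  rcases le_total u.length v.length with h | h
  · left; rw [← hu, ← hv]; exact pre_prefix x h
  · right; rw [← hu, ← hv]; exact pre_prefix x h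

lemma tree_down {P : Set C} {u v : List Bool} (h : u <+: v) (hv : v ∈ tree P) : u ∈ tree P := by
  obtain ⟨x, hx, hv⟩ := hv
  exact ⟨x, hx, ext_of_prefix h hv⟩

lemma diverge : ∀ u v : List Bool, ¬ u <+: v → ¬ v <+: u →
    ∃ w b, w ++ [b] <+: u ∧ w ++ [!b] <+: v
  | [], v, h, _ => (h List.nil_prefix).elim
  | _ :: _, [], _, h => (h List.nil_prefix).elim
  | a :: u, b :: v, h1, h2 => by
    by_cases hab : a = b
    · subst hab
      obtain ⟨w, c, h3, h4⟩ := diverge u v (fun h => h1 (by simpa using h))
        (fun h => h2 (by simpa using h))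
      exact ⟨a :: w, c, by simpa using h3, by simpa using h4⟩
    · refine ⟨[], a, by simp, ?_⟩
      have : b = !a := by cases a <;> cases b <;> simp_all
      subst this; simp

lemma both_false {w v : List Bool} {b : Bool} (h1 : w ++ [b] <+: v) (h2 : w ++ [!b] <+: v) :
    False := by
  have := (List.prefix_of_prefix_length_le h1 h2 (by simp)).eq_of_length (by simp)
  cases b <;> simp at this

/-- Cylinders. -/
def cyl (n : ℕ) (y : C) : Set C := {x | pre x n = pre y n}

lemma cyl_eq (n : ℕ) (y : C) :
    cyl n y = Set.pi (↑(Finset.range n)) (fun i => ({y i} : Set Bool)) := by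
  ext x; simp [cyl, pre_eq_iff]

lemma cyl_meas (n : ℕ) (y : C) : MeasurableSet (cyl n y) := by
  rw [cyl_eq]
  exact MeasurableSet.pi (Finset.countable_toSet _) (fun _ _ => MeasurableSet.singleton _)

/-- Product measures. -/
noncomputable def prd (q : Measure Bool) : Measure C := Measure.infinitePi (fun _ : ℕ => q)

instance (q : Measure Bool) [IsProbabilityMeasure q] : IsProbabilityMeasure (prd q) := by
  unfold prd; infer_instance

/-- Weights of words. -/
noncomputable def wt (q : Measure Bool) (w : List Bool) : ℝ≥0∞ := (w.map (fun b => q {b})).prod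

lemma wt_pre (q : Measure Bool) (y : C) (n : ℕ) :
    wt q (pre y n) = ∏ i ∈ Finset.range n, q {y i} := by
  induction n with
  | zero => simp [wt, pre]
  | succ k ih =>
    rw [pre_succ, Finset.prod_range_succ, ← ih]; simp [wt]

lemma prd_cyl (q : Measure Bool) [IsProbabilityMeasure q] (n : ℕ) (y : C) :
    prd q (cyl n y) = ∏ i ∈ Finset.range n, q {y i} := by
  rw [cyl_eq, prd, Measure.infinitePi_pi _ (fun _ _ => MeasurableSet.singleton _)]

lemma wt_le_one (q : Measure Bool) [IsProbabilityMeasure q] (w : List Bool) : wt q w ≤ 1 := by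
  induction w with
  | nil => simp [wt]
  | cons a w ih =>
    have : wt q (a :: w) = q {a} * wt q w := by simp [wt]
    rw [this]; exact mul_le_one' prob_le_one ih

lemma wt_step (q : Measure Bool) [IsProbabilityMeasure q] {u v : List Bool} {c : Bool}
    (h : u ++ [c] <+: v) : wt q v ≤ wt q u * q {c} := by
  obtain ⟨t, rfl⟩ := h
  have : wt q (u ++ [c] ++ t) = wt q u * q {c} * wt q t := by simp [wt, mul_assoc]
  rw [this]
  exact mul_le_of_le_one_right' (wt_le_one q t)

lemma prd_single (q : Measure Bool) [IsProbabilityMeasure q] (hq : ∀ b, q {b} ≤ 3 / 4) (x : C) :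
    prd q {x} = 0 := by
  have h1 : ∀ n, prd q {x} ≤ (3 / 4 : ℝ≥0∞) ^ n := by
    intro n
    calc prd q {x} ≤ prd q (cyl n x) := measure_mono (by rintro _ rfl; rfl)
      _ = ∏ i ∈ Finset.range n, q {x i} := prd_cyl q n x
      _ ≤ ∏ _i ∈ Finset.range n, (3 / 4 : ℝ≥0∞) := Finset.prod_le_prod' (fun i _ => hq _)
      _ = _ := by simp
  have h2 : (3 / 4 : ℝ≥0∞) < 1 := by
    rw [ENNReal.div_lt_iff (by norm_num) (by norm_num)]; norm_num
  exact le_antisymm (ge_of_tendsto' (ENNReal.tendsto_pow_atTop_nhds_zero_of_lt_one h2) h1)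
    (by simp)

/-! ### Transfer of null sets along a relation that does not increase cylinder measures -/

lemma transfer (μ ν : Measure C) [IsFiniteMeasure μ] (R : C → C → Prop)
    (H : ∀ n y, ν {z | ∃ y' ∈ cyl n y, R y' z} ≤ μ (cyl n y)) (S : Set C) (hS : μ S = 0) :
    ν {z | ∃ y ∈ S, R y z} = 0 := by
  classical
  refine le_antisymm (le_of_forall_gt_imp_ge_of_dense (fun r hr => ?_)) (by simp)
  obtain ⟨U, hSU, hU, hμ⟩ := Set.exists_isOpen_lt_of_lt (μ := μ) S r (by rwa [hS])
  let V : ℕ → Set C := fun n => {z | ∃ y, cyl n y ⊆ U ∧ R y z}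
  have hV : Monotone V := by
    intro m n hmn z ⟨y, hy, hR⟩
    refine ⟨y, fun x hx => hy ?_, hR⟩
    simp only [cyl, mem_setOf_eq, pre_eq_iff] at hx ⊢
    exact fun i hi => hx i (hi.trans_le hmn)
  have h1 : {z | ∃ y ∈ S, R y z} ⊆ ⋃ n, V n := by
    rintro z ⟨y, hy, hR⟩
    obtain ⟨I, u, hu, hI⟩ := isOpen_pi_iff.1 hU y (hSU hy)
    obtain ⟨n, hn⟩ := I.bddAbove
    refine mem_iUnion.2 ⟨n + 1, y, fun x hx => hI ?_, hR⟩
    simp only [cyl, mem_setOf_eq, pre_eq_iff] at hx
    intro i hi
    rw [hx i (Nat.lt_succ_of_le (hn hi))]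
    exact (hu i hi).2
  refine (measure_mono h1).trans ?_
  rw [hV.measure_iUnion]
  refine iSup_le (fun n => le_trans ?_ hμ.le)
  let ex : (Fin n → Bool) → C := fun s i => if h : i < n then s ⟨i, h⟩ else false
  let W : Finset (Fin n → Bool) := Finset.univ.filter (fun s => cyl n (ex s) ⊆ U)
  have h2 : V n ⊆ ⋃ s ∈ W, {z | ∃ y' ∈ cyl n (ex s), R y' z} := by
    rintro z ⟨y, hy, hR⟩
    have h3 : pre y n = pre (ex (fun i => y i)) n := by
      rw [pre_eq_iff]; intro i hi; simp [ex, hi]
    refine mem_iUnion₂.2 ⟨fun i => y i, ?_, y, h3, hR⟩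
    simp only [W, Finset.mem_filter, Finset.mem_univ, true_and]
    intro x hx
    exact hy (hx.trans h3.symm)
  calc ν (V n) ≤ ∑ s ∈ W, ν {z | ∃ y' ∈ cyl n (ex s), R y' z} :=
        (measure_mono h2).trans (measure_biUnion_finset_le _ _)
    _ ≤ ∑ s ∈ W, μ (cyl n (ex s)) := Finset.sum_le_sum (fun s _ => H n _)
    _ = μ (⋃ s ∈ W, cyl n (ex s)) := by
        refine (measure_biUnion_finset ?_ (fun s _ => cyl_meas _ _)).symm
        intro s _ t _ hst
        refine Set.disjoint_left.2 (fun x hx hx' => hst ?_)
        have h4 := (pre_eq_iff _ _ _).1 (hx.symm.trans hx')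
        funext i
        simpa [ex, i.2] using h4 i i.2
    _ ≤ μ U := measure_mono (iUnion₂_subset (fun s hs => (Finset.mem_filter.1 hs).2))

/-! ### The law of large numbers separates the two product measures -/

/-- Frequency of ones. -/
noncomputable def fr (x : C) (n : ℕ) : ℝ :=
  (∑ i ∈ Finset.range n, (if x i then (1 : ℝ) else 0)) / n

lemma slln (p : unitInterval) :
    ∀ᵐ x ∂(prd (bernoulliMeasure true false p)), Tendsto (fr x) atTop (𝓝 (p : ℝ)) := by
  set q := bernoulliMeasure true false p with hq
  let g : Bool → ℝ := fun b => if b then 1 else 0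
  have hg : Measurable g := measurable_of_finite _
  have hmp : ∀ i, MeasurePreserving (fun x : C => x i) (prd q) q :=
    fun i => measurePreserving_eval_infinitePi (fun _ : ℕ => q) i
  have hint : Integrable (fun x : C => g (x 0)) (prd q) :=
    (hmp 0).integrable_comp_of_integrable (g := g) Integrable.of_finite
  have hind : iIndepFun (fun (i : ℕ) (x : C) => g (x i)) (prd q) :=
    iIndepFun_infinitePi (X := fun _ => g) (fun _ => hg)
  have hid : ∀ i, IdentDistrib (fun x : C => g (x i)) (fun x : C => g (x 0)) (prd q) (prd q) := by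
    intro i
    refine IdentDistrib.comp (u := g) ⟨(hmp i).measurable.aemeasurable,
      (hmp 0).measurable.aemeasurable, ?_⟩ hg
    rw [(hmp i).map_eq, (hmp 0).map_eq]
  have h := strong_law_ae_real (fun (i : ℕ) (x : C) => g (x i)) hint
    (fun i j hij => hind.indepFun hij) hid
  have he : ∫ x, g (x 0) ∂(prd q) = p := by
    have := integral_map (μ := prd q) (φ := fun x : C => x 0) (f := g)
      (hmp 0).measurable.aemeasurable hg.aestronglyMeasurable
    rw [← this, (hmp 0).map_eq, hq, integral_bernoulliMeasure]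
    simp [g]
  simp only [he] at h
  exact h

/-- The biased coin. -/
noncomputable def bias : Measure Bool :=
  bernoulliMeasure true false ⟨1 / 4, by norm_num, by norm_num⟩

instance : IsProbabilityMeasure bias := by unfold bias; infer_instance
instance : IsProbabilityMeasure coin := by unfold coin; infer_instance

lemma sing : ∃ S : Set C, prd bias S = 0 ∧ leb Sᶜ = 0 := by
  refine ⟨{x | Tendsto (fr x) atTop (𝓝 (1 / 2 : ℝ))}, ?_, slln _⟩
  refine measure_mono_null ?_ (slln ⟨1 / 4, by norm_num, by norm_num⟩)
  intro x hx hx'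
  have := tendsto_nhds_unique hx hx'
  norm_num at this

lemma ber_le (p : unitInterval) (h1 : (p : ℝ) ≤ 3 / 4) (h2 : 1 - (p : ℝ) ≤ 3 / 4) (b : Bool) :
    bernoulliMeasure true false p {b} ≤ 3 / 4 := by
  have h3 : (3 / 4 : ℝ≥0∞) = ENNReal.ofReal (3 / 4) := by
    rw [ENNReal.ofReal_div_of_pos (by norm_num)]; simp
  rw [h3, ← ofReal_measureReal]
  refine ENNReal.ofReal_le_ofReal ?_
  cases b
  · rw [bernoulliMeasure_real_apply_of_notMem_of_mem p (MeasurableSet.singleton _) (by simp)
      (by simp)]; exact h2
  · rw [bernoulliMeasure_real_apply_of_mem_of_notMem p (MeasurableSet.singleton _) (by simp)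
      (by simp)]; exact h1

lemma coin_eq (b : Bool) : coin {b} = ENNReal.ofReal (1 / 2) := by
  rw [← ofReal_measureReal]
  congr 1
  cases b
  · rw [coin, bernoulliMeasure_real_apply_of_notMem_of_mem _ (MeasurableSet.singleton _) (by simp)
      (by simp)]; norm_num
  · rw [coin, bernoulliMeasure_real_apply_of_mem_of_notMem _ (MeasurableSet.singleton _) (by simp)
      (by simp)]

/-! ### A Sierpinski set under CH -/

lemma enum (T : Type) (hT : Cardinal.mk T ≤ Cardinal.aleph 1) :
    ∃ r : T → T → Prop, (∀ a, {b | r b a}.Countable) ∧ ∀ a b, r a b ∨ r b a := by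
  obtain ⟨_, _, ho⟩ := Cardinal.exists_ord_eq_type_lt T
  refine ⟨(· ≤ ·), fun a => ?_, le_total⟩
  have := (Cardinal.mk_Iio_lt a ho).trans_le hT
  rw [← Cardinal.succ_aleph0, Order.lt_succ_iff] at this
  have h1 : (Iic a).Countable := by
    rw [← Iio_insert]; exact (Cardinal.le_aleph0_iff_set_countable.1 this).insert a
  exact h1

lemma sierp (CH : Cardinal.continuum.{0} = Cardinal.aleph 1) (μ : Measure C)
    [IsProbabilityMeasure μ] :
    ∃ A : Set C, μ A ≠ 0 ∧ ∀ N, μ N = 0 → (A ∩ N).Countable := by
  let T := {N : Set C // MeasurableSet N ∧ μ N = 0}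
  have hT : Cardinal.mk T ≤ Cardinal.aleph 1 := by
    rw [← CH]
    have h1 := MeasurableSpace.cardinal_measurableSet_le_continuum
      (s := MeasurableSpace.countableGeneratingSet C)
      ((Cardinal.le_aleph0_iff_set_countable.2
        MeasurableSpace.countable_countableGeneratingSet).trans Cardinal.aleph0_le_continuum)
    rw [MeasurableSpace.generateFrom_countableGeneratingSet] at h1
    exact (Cardinal.mk_le_mk_of_subset (fun N hN => hN.1)).trans h1
  obtain ⟨r, hc, ht⟩ := enum T hT
  have hx : ∀ a : T, ∃ x : C, ∀ b, r b a → x ∉ b.1 := by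
    intro a
    have h2 : μ (⋃ b ∈ {b | r b a}, b.1) = 0 :=
      (measure_biUnion_null_iff (hc a)).2 (fun b _ => b.2.2)
    by_contra hcon
    push Not at hcon
    have h3 : (⋃ b ∈ {b | r b a}, b.1) = univ :=
      eq_univ_of_forall (fun x => by
        obtain ⟨b, hb, hx⟩ := hcon x
        exact mem_iUnion₂.2 ⟨b, hb, hx⟩)
    rw [h3] at h2
    simp at h2
  choose x hx using hx
  refine ⟨range x, fun h => ?_, fun N hN => ?_⟩
  · let a : T := ⟨toMeasurable μ (range x), measurableSet_toMeasurable _ _, by
      rwa [measure_toMeasurable]⟩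
    exact hx a a ((ht a a).elim id id) (subset_toMeasurable _ _ ⟨a, rfl⟩)
  · let b : T := ⟨toMeasurable μ N, measurableSet_toMeasurable _ _, by
      rwa [measure_toMeasurable]⟩
    refine ((hc b).image x).mono ?_
    rintro _ ⟨⟨a, rfl⟩, ha⟩
    refine ⟨a, ?_, rfl⟩
    by_contra hab
    exact hx a b ((ht a b).resolve_left hab) (subset_toMeasurable _ _ ha)

/-! ### Canonical maps -/

lemma canon_null {P : Set C} {h : C → C} (hc : Canonical P h) :
    Function.Injective h ∧ ∃ N, prd bias N = 0 ∧ leb (h ⁻¹' Nᶜ) = 0 := by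
  obtain ⟨e, he, ho, hx⟩ := hc
  have step : ∀ s b, ∃ c, e s ++ [c] <+: e (s ++ [b]) := by
    intro s b
    obtain ⟨t, ht⟩ := (ho s (s ++ [b])).2 (List.prefix_append _ _)
    cases t with
    | nil =>
      have h1 : e (s ++ [b]) <+: e s := by rw [← ht]; simp
      have := ((ho _ _).1 h1).length_le
      simp at this
    | cons c t => exact ⟨c, t, by rw [← ht]; simp⟩
  choose σ hσ using step
  have spl : ∀ s, e s ∈ tree P := by
    intro s
    have : e s ∈ Split P := he ▸ mem_range_self s
    exact tree_down (List.prefix_append _ _) this.1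
  have σ_ne : ∀ s, σ s false ≠ σ s true := by
    intro s hs
    obtain ⟨w, b, h1, h2⟩ := diverge (e (s ++ [false])) (e (s ++ [true]))
      (fun h => by
        have := ((ho _ _).1 h).eq_of_length (by simp)
        simp at this)
      (fun h => by
        have := ((ho _ _).1 h).eq_of_length (by simp)
        simp at this)
    have hw : w ∈ Split P := by
      cases b
      · exact ⟨tree_down h1 (spl _), tree_down h2 (spl _)⟩
      · exact ⟨tree_down h2 (spl _), tree_down h1 (spl _)⟩
    rw [← he] at hw
    obtain ⟨r, rfl⟩ := hw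
    have h3 := (ho _ _).1 ((List.prefix_append _ _).trans h1)
    have h4 := (ho _ _).1 ((List.prefix_append _ _).trans h2)
    have h5 : r <+: s := by
      rcases List.prefix_concat_iff.1 h3 with h3 | h3
      · rcases List.prefix_concat_iff.1 h4 with h4 | h4
        · rw [h3] at h4; simp at h4
        · exact h4
      · exact h3
    have h6 := ((ho _ _).2 h5).length_le
    have h7 := List.prefix_of_prefix_length_le h1 (hσ s false) (by simpa using h6)
    have h8 := List.prefix_of_prefix_length_le h2 (hσ s true) (by simpa using h6)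
    rw [← hs] at h8
    exact both_false h7 h8
  have σ_inj : ∀ s a b, σ s a = σ s b → a = b := by
    intro s a b hab
    cases a <;> cases b
    · rfl
    · exact (σ_ne s hab).elim
    · exact (σ_ne s hab.symm).elim
    · rfl
  let τ : C → C := fun x i => σ (pre x i) (x i)
  have τ_inj : ∀ x x' n, pre (τ x) n = pre (τ x') n → pre x n = pre x' n := by
    intro x x' n
    induction n with
    | zero => intro _; rfl
    | succ k ih =>
      intro h1
      rw [pre_succ, pre_succ] at h1
      obtain ⟨h2, h3⟩ := List.append_inj' h1 rfl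
      have h4 := ih h2
      have h5 : σ (pre x k) (x k) = σ (pre x' k) (x' k) := by simpa using h3
      rw [h4] at h5
      rw [pre_succ, pre_succ, h4, σ_inj _ _ _ h5]
  have wt_e : ∀ x n, wt bias (e (pre x n)) ≤ ∏ i ∈ Finset.range n, bias {τ x i} := by
    intro x n
    induction n with
    | zero => simpa using wt_le_one bias _
    | succ k ih =>
      rw [Finset.prod_range_succ, pre_succ]
      exact (wt_step bias (hσ _ _)).trans (mul_le_mul_left ih _)
  refine ⟨fun x y hxy => ?_, ?_⟩
  · funext i
    have h1 : pre x (i + 1) = pre y (i + 1) := by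
      rcases ext_comp (hx x (i + 1)) (hxy ▸ hx y (i + 1)) with h | h
      · exact ((ho _ _).1 h).eq_of_length (by simp [pre_length])
      · exact (((ho _ _).1 h).eq_of_length (by simp [pre_length])).symm
    exact (pre_eq_iff _ _ _).1 h1 i (Nat.lt_succ_self i)
  obtain ⟨S, hS1, hS2⟩ := sing
  refine ⟨{z | ∃ y ∈ S, ∃ x, τ x = y ∧ h x = z}, ?_, ?_⟩
  · refine transfer (prd bias) (prd bias) (fun y z => ∃ x, τ x = y ∧ h x = z) ?_ S hS1
    intro n y
    rcases Set.eq_empty_or_nonempty {z | ∃ y' ∈ cyl n y, ∃ x, τ x = y' ∧ h x = z} with h0 | h0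
    · rw [h0]; simp
    obtain ⟨_, _, hy, x0, rfl, rfl⟩ := h0
    calc _ ≤ prd bias (cyl (e (pre x0 n)).length (h x0)) := by
          refine measure_mono ?_
          rintro _ ⟨_, hy', x, rfl, rfl⟩
          have h1 := τ_inj x x0 n (hy'.trans hy.symm)
          have h2 := hx x n
          rw [h1] at h2
          exact h2.trans (hx x0 n).symm
      _ = wt bias (e (pre x0 n)) := by rw [prd_cyl, ← wt_pre, hx x0 n]
      _ ≤ ∏ i ∈ Finset.range n, bias {τ x0 i} := wt_e x0 n
      _ = prd bias (cyl n y) := by rw [prd_cyl, ← wt_pre, ← wt_pre, hy]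
  · have h1 := transfer (prd coin) (prd coin) (fun y z => τ z = y) ?_ Sᶜ hS2
    · refine measure_mono_null ?_ h1
      intro x hx'
      exact ⟨τ x, fun hs => hx' ⟨τ x, hs, x, rfl, rfl⟩, rfl⟩
    intro n y
    rcases Set.eq_empty_or_nonempty {z | ∃ y' ∈ cyl n y, τ z = y'} with h0 | h0
    · rw [h0]; simp
    obtain ⟨x0, _, hy, rfl⟩ := h0
    calc _ ≤ prd coin (cyl n x0) := by
          refine measure_mono ?_
          rintro x ⟨_, hy', rfl⟩
          exact τ_inj x x0 n (hy'.trans hy.symm)
      _ = prd coin (cyl n y) := by simp only [prd_cyl, coin_eq]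

theorem main (CH : Cardinal.continuum.{0} = Cardinal.aleph 1) : ∃ A : Set C, PN A ∧ ¬ UN A := by
  obtain ⟨A, hA1, hA2⟩ := sierp CH (prd bias)
  refine ⟨A, fun P _ _ h hc => ?_, fun hU => hA1 (hU _ inferInstance
    (prd_single bias (ber_le _ (by norm_num) (by norm_num))))⟩
  obtain ⟨hi, N, hN1, hN2⟩ := canon_null hc
  have h1 : (h ⁻¹' (A ∩ N)).Countable := (hA2 N hN1).preimage hi
  have h2 : leb (h ⁻¹' (A ∩ N)) = 0 := by
    rw [← biUnion_of_singleton (h ⁻¹' (A ∩ N))]
    exact (measure_biUnion_null_iff h1).2
      (fun x _ => prd_single coin (ber_le _ (by norm_num) (by norm_num)) x)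
  refine measure_mono_null ?_ (measure_union_null h2 hN2)
  intro x hx
  by_cases hN : h x ∈ N
  · exact Or.inl ⟨hx.1, hN⟩
  · exact Or.inr hN

/-! ### Every nonempty perfect set has a canonical map (so `PN` is not vacuous) -/

lemma split_of {P : Set C} {w : List Bool} {b : Bool} (h1 : w ++ [b] ∈ tree P)
    (h2 : w ++ [!b] ∈ tree P) : w ∈ Split P := by
  cases b
  · exact ⟨h1, h2⟩
  · exact ⟨h2, h1⟩

lemma split_tree {P : Set C} {w : List Bool} (h : w ∈ Split P) (b : Bool) : w ++ [b] ∈ tree P := by
  cases b
  · exact h.1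
  · exact h.2

lemma ext_pre (x : C) (n : ℕ) : Ext (pre x n) x := by rw [Ext, pre_length]

lemma exists_next {P : Set C} (hP : Perfect P) (w : List Bool) (hw : w ∈ tree P) :
    ∃ v ∈ Split P, w <+: v ∧ ∀ u ∈ Split P, w <+: u → v <+: u := by
  classical
  have h0 : ∃ n, ∃ v ∈ Split P, w <+: v ∧ v.length = n := by
    obtain ⟨x, hx, hwx⟩ := hw
    have h1 : cyl w.length x ∈ 𝓝 x := by
      rw [cyl_eq]
      exact set_pi_mem_nhds (Finset.finite_toSet _) (fun i _ => by simp)
    obtain ⟨y, ⟨hy1, hy2⟩, hyx⟩ := accPt_iff_nhds.1 (hP.acc x hx) _ h1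
    have h2 : ∃ k, y k ≠ x k := Function.ne_iff.1 hyx
    have h3 : pre y (Nat.find h2) = pre x (Nat.find h2) :=
      (pre_eq_iff _ _ _).2 (fun i hi => not_not.1 (Nat.find_min h2 hi))
    have h4 : w.length ≤ Nat.find h2 := by
      by_contra hlt
      exact Nat.find_spec h2 ((pre_eq_iff _ _ _).1 hy1 _ (not_le.1 hlt))
    refine ⟨_, pre x (Nat.find h2), split_of (b := x (Nat.find h2)) ?_ ?_, ?_, rfl⟩
    · rw [← pre_succ]; exact ⟨x, hx, ext_pre _ _⟩
    · have h5 : (!x (Nat.find h2)) = y (Nat.find h2) := by
        have := Nat.find_spec h2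
        revert this
        cases x (Nat.find h2) <;> cases y (Nat.find h2) <;> simp
      rw [h5, ← h3, ← pre_succ]; exact ⟨y, hy2, ext_pre _ _⟩
    · rw [← hwx]; exact pre_prefix x h4
  obtain ⟨v, hv, hwv, hl⟩ := Nat.find_spec h0
  have hmin : ∀ u ∈ Split P, w <+: u → v.length ≤ u.length := fun u hu hwu =>
    hl ▸ Nat.find_min' h0 ⟨u, hu, hwu, rfl⟩
  refine ⟨v, hv, hwv, fun u hu hwu => ?_⟩
  by_contra hvu
  have huv : ¬ u <+: v := fun h =>
    hvu ((h.eq_of_length_le (hmin u hu hwu)) ▸ List.prefix_refl _)
  obtain ⟨w', b, h1, h2⟩ := diverge v u hvu huv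
  have h3 : w' ∈ Split P := split_of
    (tree_down (h1.trans (List.prefix_append _ _)) hv.1)
    (tree_down (h2.trans (List.prefix_append _ _)) hu.1)
  rcases le_or_gt w.length w'.length with h | h
  · have h4 := hmin w' h3
      (List.prefix_of_prefix_length_le hwv ((List.prefix_append _ _).trans h1) h)
    have h5 := h1.length_le
    simp at h5
    omega
  · exact both_false (List.prefix_of_prefix_length_le h1 hwv (by simpa using h))
      (List.prefix_of_prefix_length_le h2 hwu (by simpa using h))

lemma exists_canon {P : Set C} (hP : Perfect P) (hne : P.Nonempty) : ∃ h, Canonical P h := by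
  choose! nx h1 h2 h3 using exists_next hP
  let E : List Bool → List Bool := fun l => List.rec (nx []) (fun b _ r => nx (r ++ [b])) l
  let e : List Bool → List Bool := fun s => E s.reverse
  have e0 : e [] = nx [] := rfl
  have e1 : ∀ s b, e (s ++ [b]) = nx (e s ++ [b]) := by
    intro s b; simp [e, E]
  have t0 : [] ∈ tree P := by
    obtain ⟨x, hx⟩ := hne
    exact ⟨x, hx, rfl⟩
  have spl : ∀ s, e s ∈ Split P := by
    intro s
    induction s using List.reverseRecOn with
    | nil => exact h1 _ t0
    | append_singleton s b ih => rw [e1]; exact h1 _ (split_tree ih b)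
  have step : ∀ s b, e s ++ [b] <+: e (s ++ [b]) := by
    intro s b; rw [e1]; exact h2 _ (split_tree (spl s) b)
  have mono : ∀ s t, s <+: t → e s <+: e t := by
    rintro s _ ⟨r, rfl⟩
    induction r using List.reverseRecOn with
    | nil => simp
    | append_singleton r b ih =>
      rw [← List.append_assoc]
      exact ih.trans ((List.prefix_append _ _).trans (step _ _))
  have strict : ∀ s t : List Bool, s <+: t → s ≠ t → ∃ b, s ++ [b] <+: t := by
    rintro s _ ⟨r, rfl⟩ hne
    cases r with
    | nil => simp at hne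
    | cons b r => exact ⟨b, r, by simp⟩
  have refl : ∀ s t, e s <+: e t → s <+: t := by
    intro s t h
    by_contra hst
    by_cases hts : t <+: s
    · obtain ⟨b, hb⟩ := strict t s hts (fun h => hst (h ▸ List.prefix_refl _))
      have := (((step t b).trans (mono _ _ hb)).trans h).length_le
      simp at this
    · obtain ⟨w, b, h4, h5⟩ := diverge s t hst hts
      exact both_false (((step w b).trans (mono _ _ h4)).trans h)
        ((step w (!b)).trans (mono _ _ h5))
  have surj : ∀ n : ℕ, ∀ u ∈ Split P, ∀ s : List Bool, e s <+: u → u.length ≤ (e s).length + n →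
      ∃ t, e t = u := by
    intro n
    induction n with
    | zero => exact fun u _ s h hl => ⟨s, h.eq_of_length_le hl⟩
    | succ k ih =>
      intro u hu s h hl
      rcases Classical.em (e s = u) with hsu | hsu
      · exact ⟨s, hsu⟩
      obtain ⟨b, hb⟩ := strict _ _ h hsu
      refine ih u hu (s ++ [b]) ?_ ?_
      · rw [e1]; exact h3 _ (split_tree (spl s) b) u hu hb
      · have := (step s b).length_le
        simp at this
        omega
  have len : ∀ s, s.length ≤ (e s).length := by
    intro s
    induction s using List.reverseRecOn with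
    | nil => simp
    | append_singleton s b ih =>
      have := (step s b).length_le
      simp at this ⊢
      omega
  refine ⟨fun x i => (e (pre x (i + 1))).getD i false, e, ?_,
    fun s t => ⟨refl s t, mono s t⟩, fun x n => ?_⟩
  · refine Subset.antisymm (by rintro _ ⟨s, rfl⟩; exact spl s) (fun u hu => ?_)
    exact surj u.length u hu [] (h3 _ t0 u hu List.nil_prefix) (Nat.le_add_left _ _)
  · refine List.ext_getElem (pre_length _ _) (fun i hi1 hi2 => ?_)
    have h4 : i < (e (pre x (i + 1))).length := by
      have := len (pre x (i + 1))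
      rw [pre_length] at this
      omega
    have h5 := (mono _ _ (pre_prefix x (le_max_left (i + 1) n))).getElem h4
    have h6 := (mono _ _ (pre_prefix x (le_max_right (i + 1) n))).getElem hi2
    simp only [pre, List.getElem_map, List.getElem_range] at h4 h5 h6 ⊢
    rw [List.getD_eq_getElem _ _ h4, h5, h6]

/-- Every nonempty perfect set has a canonical map, and under CH there is a perfectly null set
which is not universally null. -/
theorem result :
    (∀ P : Set C, Perfect P → P.Nonempty → ∃ h : C → C, Canonical P h) ∧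
    (Cardinal.continuum.{0} = Cardinal.aleph 1 → ∃ A : Set C, PN A ∧ ¬ UN A) :=
  ⟨fun _ hP hne => exists_canon hP hne, main⟩

end Pool.Agent.Results.MP_dd3545_lc.PerfNull
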